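import Pool.Agent.Lib.MP_114753_an.Main

/-!
# A non-trivial potential whose Newton equation is totally integrable at infinity

There is a smooth potential `V(u, t)`, `1`-periodic in `u` and in `t`, which is not of the form
`W(n u + m t) + g(t)`, such that `u'' = -∂_u V(u, t)` is totally integrable at infinity.

Idea of the proof. Look for a one-parameter family of invariant graphs `p = f(u, t; l)`, that is of
doubly periodic solutions of `f_t + f f_u = -V_u`, whose parameter dependence has exactly two
branch points (a two-component reduction of the Benney chain). In the characteristic coordinates
`(x, y)` of the two branches the potential satisfies a wave equation of Gibbons-Tsarev type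
`V_xy = 2 V_x V_y / (q₁ - q₂)^2`, the two characteristic speeds `q₁, q₂` and the functions `u, t` of
`(x, y)` satisfy first order equations driven by `V`, and the family of graphs is found by solving
`f_x = -V_x / (f - q₁)`, `f_y = -V_y / (f - q₂)`. All these equations are solved on the torus, by
a contraction in a Banach algebra of functions with exponentially decaying Fourier coefficients,
near `q₁ = -1`, `q₂ = 1`, `V = ε (cos 2πx + cos 2πy)`; the parity of the data makes the averages
that could obstruct periodicity vanish. Since `(x, y) ↦ (u, t)` is a diffeomorphism compatible
with the lattices, this gives a doubly periodic potential in the `(u, t)` plane, with graphs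
covering all large `|p|`.
-/

namespace Pool.Agent.Results.MP_114753_an.NontrivialPotentialExists

open Pool.Agent.Lib.MP_114753_an

/-- There is a smooth doubly periodic potential outside the family `W(n u + m t) + g(t)` whose
Newton equation is totally integrable at infinity. -/
theorem result : ∃ V : ℝ → ℝ → ℝ,
    IsSmoothPeriodic V ∧ ¬ InFamily V ∧ TotallyIntegrableAtInfinity V :=
  _root_.MP_114753_an.main

end Pool.Agent.Results.MP_114753_an.NontrivialPotentialExists
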